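import Pool.Agent.Lib.MP_121189_an.H51Fun

set_option autoImplicit false

open MeasureTheory Filter Topology

namespace Pool.Agent.Results.MP_121189_an.FiniteVariation

/-- Billiard in the regular tetrahedron (positions `x` with `-1 < ∑ i, N j i * x i` for the four
inner normals `N j`, velocities `v` up to speed). Every measurable first integral `f` (invariant
under free flight, specular reflection and speed rescaling) whose mean velocity increment
`∫ over |u| < 1 of ∫ over {x in T, |v| < 1} of |f (x, v + c u) - f (x, v)|` is `≤ C c` for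
arbitrarily small `c > 0` is almost everywhere constant. -/
theorem result :
    ∀ N : Fin 4 → Fin 3 → ℝ,
      N = ![![1, 1, 1], ![1, -1, -1], ![-1, 1, -1], ![-1, -1, 1]] →
    ∀ f : (Fin 3 → ℝ) × (Fin 3 → ℝ) → ℝ, Measurable f →
      (∀ x v : Fin 3 → ℝ, ∀ c : ℝ, 0 < c → f (x, v) = f (x, c • v)) →
      (∀ x v : Fin 3 → ℝ, ∀ t : ℝ, 0 ≤ t →
        (∀ s ∈ Set.Icc (0:ℝ) t, ∀ k : Fin 4, -1 < ∑ i, N k i * (x i + s * v i)) →
        f (x, v) = f (x + t • v, v)) →
      (∀ x v : Fin 3 → ℝ, ∀ k : Fin 4, ∀ t u : ℝ, 0 < t → 0 < u →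
        (∀ j : Fin 4, -1 < ∑ i, N j i * x i) →
        ∑ i, N k i * (x i + t * v i) = -1 →
        (∀ j : Fin 4, j ≠ k → -1 < ∑ i, N j i * (x i + t * v i)) →
        (∀ j : Fin 4, -1 < ∑ i, N j i *
            (x i + t * v i + u * (v i - (2 / 3 : ℝ) * (∑ l, N k l * v l) * N k i))) →
        f (x, v) =
          f (x + t • v + u • (v - ((2 / 3 : ℝ) * ∑ l, N k l * v l) • N k),
            v - ((2 / 3 : ℝ) * ∑ l, N k l * v l) • N k)) →
      (∃ C : ℝ, ∃ᶠ c in 𝓝[>] (0 : ℝ),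
        ∫⁻ u in {u : Fin 3 → ℝ | ∑ i, u i ^ 2 < 1},
          ∫⁻ z in {z : (Fin 3 → ℝ) × (Fin 3 → ℝ) |
              (∀ j : Fin 4, -1 < ∑ i, N j i * z.1 i) ∧ ∑ i, z.2 i ^ 2 < 1},
            ENNReal.ofReal |f (z.1, z.2 + c • u) - f z| ≤ ENNReal.ofReal (C * c)) →
      ∃ κ : ℝ, ∀ᵐ z ∂(volume : Measure ((Fin 3 → ℝ) × (Fin 3 → ℝ))).restrict
        {z | ∀ j : Fin 4, -1 < ∑ i, N j i * z.1 i}, f z = κ := by
  intro N hN f hf hs hfl hre hV
  have hN' : N = Pool.Agent.Lib.MP_121189_an.N := hN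
  subst hN'
  clear hN
  obtain ⟨C, hC⟩ := hV
  have hlen : ∀ u : Fin 3 → ℝ, (∑ i, u i ^ 2 < 1) = (Pool.Agent.Lib.MP_121189_an.len u < 1) := by
    intro u
    have h1 : ∑ i, u i ^ 2 = u ⬝ᵥ u := by
      simp only [dotProduct, sq]
    apply propext
    rw [h1, Pool.Agent.Lib.MP_121189_an.len]
    rw [Real.sqrt_lt' one_pos, one_pow]
  have hI : Pool.Agent.Lib.MP_121189_an.InvF f := by
    refine ⟨?_, ?_⟩
    · intro x v t ht h
      exact hfl x v t ht fun s hs k => h s hs.1 hs.2 k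
    · intro x v k t u ht hu hx hF hy
      refine hre x v k t u ht hu hx hF.1 hF.2 ?_
      intro j
      have := hy j
      have e : Pool.Agent.Lib.MP_121189_an.N j ⬝ᵥ
          (x + t • v + u • Pool.Agent.Lib.MP_121189_an.R k v)
          = ∑ i, Pool.Agent.Lib.MP_121189_an.N j i *
            (x i + t * v i + u * (v i - (2 / 3 : ℝ) *
              (∑ l, Pool.Agent.Lib.MP_121189_an.N k l * v l) *
                Pool.Agent.Lib.MP_121189_an.N k i)) := rfl
      rw [e] at this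
      exact this
  refine Pool.Agent.Lib.MP_121189_an.final_fun hf hI hs (C := ENNReal.ofReal C)
    ENNReal.ofReal_ne_top ?_
  refine (hC.and_eventually self_mem_nhdsWithin).mono ?_
  rintro c ⟨h1, h2⟩
  have h3 : ENNReal.ofReal C * ENNReal.ofReal c = ENNReal.ofReal (C * c) :=
    (ENNReal.ofReal_mul' (le_of_lt h2)).symm
  rw [h3]
  simp only [hlen] at h1
  exact h1

end Pool.Agent.Results.MP_121189_an.FiniteVariation
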